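import Pool.Agent.Lib.MP_cb0de5_an.Glob
import Pool.Agent.Lib.MP_cb0de5_an.NetAlg
import Pool.Agent.Lib.MP_cb0de5_an.RunExists
import Pool.Agent.Lib.MP_cb0de5_an.Sq
import Pool.Agent.Lib.MP_cb0de5_an.Crude
import Pool.Agent.Lib.MP_cb0de5_an.Comp
import Pool.Agent.Lib.MP_cb0de5_an.ChildUp
import Pool.Agent.Lib.MP_cb0de5_an.Up
import Pool.Agent.Lib.MP_cb0de5_an.Fresh
import Pool.Agent.Lib.MP_cb0de5_an.Supply
import Pool.Agent.Lib.MP_cb0de5_an.ScalarFill
import Pool.Agent.Lib.MP_cb0de5_an.ThLow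
import Pool.Agent.Lib.MP_cb0de5_an.FillStep
import Pool.Agent.Lib.MP_cb0de5_an.Fill
import Pool.Agent.Lib.MP_cb0de5_an.ScalarLow
import Pool.Agent.Lib.MP_cb0de5_an.PosLate
import Pool.Agent.Lib.MP_cb0de5_an.PosEarly
import Pool.Agent.Lib.MP_cb0de5_an.CascadeFrom
import Pool.Agent.Lib.MP_cb0de5_an.Lines
import Pool.Agent.Lib.MP_cb0de5_an.Select
import Pool.Agent.Lib.MP_cb0de5_an.StepArith
import Pool.Agent.Lib.MP_cb0de5_an.ArithFrom
import Pool.Agent.Lib.MP_cb0de5_an.ResSum
import Pool.Agent.Lib.MP_cb0de5_an.Bridge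
import Pool.Agent.Lib.MP_cb0de5_an.GrowthFrom
import Pool.Agent.Lib.MP_cb0de5_an.AlgF
import Pool.Agent.Lib.MP_cb0de5_an.NormF
import Pool.Agent.Lib.MP_cb0de5_an.EvF
import Pool.Agent.Lib.MP_cb0de5_an.Pow4
import Pool.Agent.Lib.MP_cb0de5_an.GalExists
import Pool.Agent.Lib.MP_cb0de5_an.ApproxExists
import Pool.Agent.Lib.MP_cb0de5_an.EnergyId
import Pool.Agent.Lib.MP_cb0de5_an.EnergyBound
import Pool.Agent.Lib.MP_cb0de5_an.Boot
import Pool.Agent.Lib.MP_cb0de5_an.Uniform
import Pool.Agent.Lib.MP_cb0de5_an.Cauchy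
import Pool.Agent.Lib.MP_cb0de5_an.WeakLimit
import Pool.Agent.Lib.MP_cb0de5_an.DilF
import Pool.Agent.Lib.MP_cb0de5_an.UnifLim
import Pool.Agent.Lib.MP_cb0de5_an.UnifHs
import Pool.Agent.Lib.MP_cb0de5_an.ApproxEqn
import Pool.Agent.Lib.MP_cb0de5_an.Limit
import Pool.Agent.Lib.MP_cb0de5_an.Parseval
import Pool.Agent.Lib.MP_cb0de5_an.HsF
import Pool.Agent.Lib.MP_cb0de5_an.DuBois
import Pool.Agent.Lib.MP_cb0de5_an.PairCont
import Pool.Agent.Lib.MP_cb0de5_an.WeakForm
import Pool.Agent.Lib.MP_cb0de5_an.Glue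
import Pool.Agent.Lib.MP_cb0de5_an.Restrict
import Pool.Agent.Lib.MP_cb0de5_an.PdeFrom
import Pool.Agent.Lib.MP_cb0de5_an.InflationFrom
import Pool.Agent.Lib.MP_cb0de5_an.FinalFrom

/-!
MP_cb0de5_an: the periodic quartic generalized KdV equation `∂ₜ u + ∂ₓₓₓ u + σ ∂ₓ(u ^ 4) = 0` has norm
inflation at `0` in `H^s(𝕋)` for every `1/4 ≤ s < 1/3`.  Hence it is not (unconditionally) locally
well-posed there, although `1/2 - 1/4 = 1/4 ≤ s`: the answer to the question is negative.
-/

open GKdV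

namespace Pool.Agent.Results.MP_cb0de5_an.NormInflation

/-- (1) For both signs `σ` and all `1/4 ≤ s < 1/3` there are solutions `u` of the quartic equation in
`C([0, T]; H^s(𝕋))` with arbitrarily small `T` and arbitrarily small `‖u(0)‖_{H^s}`, but arbitrarily
large `‖u(T)‖_{H^s}`; and the quartic equation is not unconditionally locally well-posed in
`H^s(𝕋)`.  (2) The statement of the question, for all `k ≥ 3` and all `s ≥ 1/2 - 1/k`, is false. -/
theorem result :
    (∀ σ : ℝ, (σ = 1 ∨ σ = -1) → ∀ s : ℝ, 1 / 4 ≤ s → s < 1 / 3 →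
      (∀ ε > 0, ∃ T, 0 < T ∧ T < ε ∧ ∃ u : ℝ → ℝ → ℝ,
        IsSolution 4 σ s T u ∧ hsNorm s (u 0) < ε ∧ 1 / ε < hsNorm s (u T)) ∧
      ¬ UnconditionallyLWP 4 σ s) ∧
    ¬ (∀ k : ℕ, 3 ≤ k → ∀ σ : ℝ, (σ = 1 ∨ σ = -1) → ∀ s : ℝ, 1 / 2 - 1 / (k : ℝ) ≤ s →
      UnconditionallyLWP k σ s) := by
  -- part A: the cascade
  have sq := sqStmt netAlgStmt
  have crude := crudeStmt netAlgStmt sq
  have childUp := childUpStmt netAlgStmt sq crude compStmt
  have up := upStmt sq crude childUp
  have fresh := freshStmt netAlgStmt sq crude compStmt childUp up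
  have thLow := thLowStmt sq crude childUp up supplyStmt
  have fillStep := fillStepStmt sq crude childUp up scalarFillStmt
  have fill := fillStmt fresh thLow fillStep
  have cascade := cascadeFromStmt (runExistsStmt globStmt netAlgStmt) sq crude fill
    (posLateStmt sq crude childUp up fill scalarLowStmt)
    (posEarlyStmt sq crude childUp up fresh fill)
  -- part B: arithmetic networks
  have growth := growthFromStmt cascade (arithFromStmt (selectStmt linesStmt) stepArithStmt)
    (bridgeStmt resSumStmt)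
  -- part C: from the resonant system to the equation
  have gal := galExistsStmt globStmt algFacts normFacts
  have unif := uniformStmt algFacts normFacts
    (approxExistsStmt algFacts normFacts (pow4Stmt algFacts))
    (energyBoundStmt algFacts normFacts (energyIdStmt algFacts)) bootStmt
  have dilF := dilFacts algFacts normFacts evFacts
  have cauchy := cauchyStmt algFacts normFacts
  have lim := limitStmt algFacts normFacts evFacts dilF
    (unifLimStmt algFacts normFacts evFacts cauchy)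
    (unifHsStmt algFacts normFacts evFacts cauchy dilF)
    (approxEqnStmt algFacts normFacts evFacts weakLimitStmt) hsFacts
  have pde := pdeFromStmt algFacts normFacts evFacts gal unif lim dilF hsFacts
  -- part D: conclusion
  have infl : NormInflationStmt := inflationFromStmt growth pde
  have pairC := pairContStmt hsFacts parsevalStmt
  have fin : FinalStmt := finalFromStmt hsFacts
    (glueStmt hsFacts (weakFormStmt pairC duBoisStmt) pairC) restrictStmt infl
  exact ⟨fun σ hσ s h1 h2 => ⟨infl σ hσ s h1 h2, fin.1 σ hσ s h1 h2⟩, fin.2⟩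

end Pool.Agent.Results.MP_cb0de5_an.NormInflation
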